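import Mathlib
import Pool.Agent.Q147.MinGroup

/-!
# MP_35204b_gt : closed subgroups of (totally minimal) abelian times compact groups
-/

namespace Pool.Agent.Results.MP_35204b_gt.ClosedSubgroupsOfProducts

open Set Filter Topology Pool.Agent.Q147.MinGroup

set_option linter.unusedSectionVars false

universe u v

/-- `G` is totally minimal: all quotients by closed normal subgroups are minimal. -/
def TotallyMinimal (G : Type u) [Group G] [TopologicalSpace G] : Prop :=
  ∀ (N : Subgroup G) [N.Normal], IsClosed (N : Set G) → IsMinimalGroup (G ⧸ N)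

/-- Every closed subgroup is minimal. -/
def CMinimal (G : Type u) [Group G] [TopologicalSpace G] : Prop :=
  ∀ L : Subgroup G, IsClosed (L : Set G) → IsMinimalGroup L

/-- Every closed subgroup is totally minimal. -/
def CTotallyMinimal (G : Type u) [Group G] [TopologicalSpace G] : Prop :=
  ∀ L : Subgroup G, IsClosed (L : Set G) → TotallyMinimal L

section

variable {A : Type u} [CommGroup A] [TopologicalSpace A] [IsTopologicalGroup A] [T2Space A]
  {K : Type v} [Group K] [TopologicalSpace K] [IsTopologicalGroup K] [T2Space K] [CompactSpace K]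

/-- The projection of a subgroup. -/
def p (L : Subgroup (A × K)) : L →* A := (MonoidHom.fst A K).comp L.subtype

theorem p_apply (L : Subgroup (A × K)) (l : L) : p L l = l.1.1 := rfl

theorem continuous_p (L : Subgroup (A × K)) : Continuous (p L) :=
  continuous_fst.comp continuous_subtype_val

theorem isClosedMap_p (L : Subgroup (A × K)) (hL : IsClosed (L : Set (A × K))) :
    IsClosedMap (p L) := by
  have h1 : IsClosedMap (Prod.fst : A × K → A) := isClosedMap_fst_of_compactSpace
  have h2 : IsClosedMap (Subtype.val : L → A × K) := hL.isClosedMap_subtype_val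
  exact h1.comp h2

theorem isCompact_ker (L : Subgroup (A × K)) (hL : IsClosed (L : Set (A × K))) :
    IsCompact ((p L).ker : Set L) := by
  rw [Subtype.isCompact_iff]
  have h1 : (Subtype.val '' ((p L).ker : Set L) : Set (A × K)) =
      (L : Set (A × K)) ∩ ({1} ×ˢ (univ : Set K)) := by
    ext x
    constructor
    · rintro ⟨l, hl, rfl⟩
      exact ⟨l.2, hl, Set.mem_univ _⟩
    · rintro ⟨hxL, hx1, -⟩
      exact ⟨⟨x, hxL⟩, hx1, rfl⟩
  rw [h1]
  exact (isCompact_singleton.prod isCompact_univ).inter_left hL

theorem q2 (hA : TotallyMinimal A) : CTotallyMinimal (A × K) := by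
  intro L hL M _ hM
  -- the image of `M`
  let P₀ : Subgroup A := M.map (p L)
  have hP₀ : IsClosed (P₀ : Set A) := by
    have : (P₀ : Set A) = p L '' M := Subgroup.coe_map _ _
    rw [this]
    exact isClosedMap_p L hL _ hM
  have hQ : IsMinimalGroup (A ⧸ P₀) := hA P₀ hP₀
  -- the induced homomorphism
  let g : L ⧸ M →* A ⧸ P₀ := QuotientGroup.map M P₀ (p L) (by
    intro m hm
    exact Subgroup.mem_map_of_mem _ hm)
  have hg : ∀ l : L, g (QuotientGroup.mk l) = QuotientGroup.mk (p L l) := fun l => rfl
  have hgc : Continuous g := by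
    have h1 : Continuous (g ∘ (QuotientGroup.mk : L → L ⧸ M)) :=
      continuous_quot_mk.comp (continuous_p L)
    exact (QuotientGroup.isQuotientMap_mk M).continuous_iff.2 h1
  -- preimages of images of saturated sets
  have hpre : ∀ D : Set L, (∀ d ∈ D, ∀ m ∈ M, d * m ∈ D) →
      (QuotientGroup.mk : A → A ⧸ P₀) ⁻¹'
        ((fun l : L => (QuotientGroup.mk (p L l) : A ⧸ P₀)) '' D) = p L '' D := by
    intro D hD
    ext a
    constructor
    · rintro ⟨l, hl, hla⟩
      have h2 : (p L l)⁻¹ * a ∈ P₀ := QuotientGroup.eq.1 hla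
      obtain ⟨m, hm, hma⟩ := Subgroup.mem_map.1 h2
      refine ⟨l * m, hD l hl m hm, ?_⟩
      rw [map_mul, hma, mul_inv_cancel_left]
    · rintro ⟨l, hl, rfl⟩
      exact ⟨l, hl, rfl⟩
  have hrange : IsClosed (g.range : Set (A ⧸ P₀)) := by
    rw [← (QuotientGroup.isQuotientMap_mk (N := P₀)).isClosed_preimage]
    have h1 : (g.range : Set (A ⧸ P₀)) =
        (fun l : L => (QuotientGroup.mk (p L l) : A ⧸ P₀)) '' univ := by
      ext x
      constructor
      · rintro ⟨y, rfl⟩
        obtain ⟨l, rfl⟩ := QuotientGroup.mk_surjective y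
        exact ⟨l, Set.mem_univ _, rfl⟩
      · rintro ⟨l, -, rfl⟩
        exact ⟨QuotientGroup.mk l, rfl⟩
    rw [h1, hpre univ (fun _ _ _ _ => Set.mem_univ _)]
    exact isClosedMap_p L hL _ isClosed_univ
  have hPmin : IsMinimalGroup g.range := closed_subgroup_minimal hQ g.range hrange
  -- the homomorphism onto its range is a quotient map
  have hfq : IsQuotientMap g.rangeRestrict := by
    have hfc : Continuous g.rangeRestrict := hgc.subtype_mk _
    have hcomp : IsQuotientMap (g.rangeRestrict ∘ (QuotientGroup.mk : L → L ⧸ M)) := by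
      rw [isQuotientMap_iff_isClosed]
      refine ⟨g.rangeRestrict_surjective.comp QuotientGroup.mk_surjective, fun S => ?_⟩
      constructor
      · intro hS
        exact hS.preimage (hfc.comp continuous_quot_mk)
      · intro hS
        -- the image in `A ⧸ P₀` is closed
        have h2 : (Subtype.val '' S : Set (A ⧸ P₀)) =
            (fun l : L => (QuotientGroup.mk (p L l) : A ⧸ P₀)) ''
              ((g.rangeRestrict ∘ (QuotientGroup.mk : L → L ⧸ M)) ⁻¹' S) := by
          ext x
          constructor
          · rintro ⟨⟨x, y, rfl⟩, hx, rfl⟩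
            obtain ⟨l, rfl⟩ := QuotientGroup.mk_surjective y
            exact ⟨l, hx, rfl⟩
          · rintro ⟨l, hl, rfl⟩
            exact ⟨_, hl, rfl⟩
        have h3 : IsClosed (Subtype.val '' S : Set (A ⧸ P₀)) := by
          rw [← (QuotientGroup.isQuotientMap_mk (N := P₀)).isClosed_preimage, h2, hpre]
          · exact isClosedMap_p L hL _ hS
          · intro d hd m hm
            have h4 : (QuotientGroup.mk (d * m) : L ⧸ M) = QuotientGroup.mk d :=
              QuotientGroup.mk_mul_of_mem d hm
            change g.rangeRestrict (QuotientGroup.mk (d * m)) ∈ S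
            rw [h4]
            exact hd
        have h5 := h3.preimage (continuous_subtype_val (p := fun x => x ∈ g.range))
        rwa [Set.preimage_image_eq _ Subtype.val_injective] at h5
    exact IsQuotientMap.of_comp continuous_quot_mk hfc hcomp
  refine minimal_of_compact_kernel g.rangeRestrict hfq ?_ hPmin
  -- the kernel is compact
  have h6 : (g.rangeRestrict.ker : Set (L ⧸ M)) =
      (QuotientGroup.mk : L → L ⧸ M) '' ((p L).ker : Set L) := by
    rw [MonoidHom.ker_rangeRestrict]
    ext x
    constructor
    · intro hx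
      obtain ⟨l, rfl⟩ := QuotientGroup.mk_surjective x
      have h7 : (QuotientGroup.mk (p L l) : A ⧸ P₀) = 1 := hx
      have h8 : p L l ∈ P₀ := (QuotientGroup.eq_one_iff _).1 h7
      obtain ⟨m, hm, hml⟩ := Subgroup.mem_map.1 h8
      refine ⟨l * m⁻¹, ?_, ?_⟩
      · change p L (l * m⁻¹) = 1
        rw [map_mul, map_inv, hml, mul_inv_cancel]
      · exact QuotientGroup.mk_mul_of_mem l (M.inv_mem hm)
    · rintro ⟨l, hl, rfl⟩
      change (QuotientGroup.mk (p L l) : A ⧸ P₀) = 1
      rw [show p L l = 1 from hl]
      rfl
  rw [h6]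
  exact (isCompact_ker L hL).image continuous_quot_mk

theorem q1 (hA : IsMinimalGroup A) : CMinimal (A × K) := by
  intro L hL
  have hrange : IsClosed ((p L).range : Set A) := by
    have h1 : ((p L).range : Set A) = p L '' univ := by
      rw [Set.image_univ]; rfl
    rw [h1]
    exact isClosedMap_p L hL _ isClosed_univ
  have hPmin : IsMinimalGroup (p L).range := closed_subgroup_minimal hA _ hrange
  have hfc : Continuous (p L).rangeRestrict := (continuous_p L).subtype_mk _
  have hfcl : IsClosedMap (p L).rangeRestrict := by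
    intro D hD
    have h3 : IsClosed (p L '' D) := isClosedMap_p L hL _ hD
    have h5 := h3.preimage (continuous_subtype_val (p := fun x => x ∈ (p L).range))
    have h6 : (p L).rangeRestrict '' D = Subtype.val ⁻¹' (p L '' D) := by
      ext x
      constructor
      · rintro ⟨l, hl, rfl⟩
        exact ⟨l, hl, rfl⟩
      · rintro ⟨l, hl, hlx⟩
        exact ⟨l, hl, Subtype.ext hlx⟩
    rw [h6]
    exact h5
  refine minimal_of_compact_kernel (p L).rangeRestrict
    (hfcl.isQuotientMap hfc (p L).rangeRestrict_surjective) ?_ hPmin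
  rw [MonoidHom.ker_rangeRestrict]
  exact isCompact_ker L hL

end

/-- `Q1` and `Q2` are true: for an abelian Hausdorff group `A` and a compact Hausdorff group `K`,
if `A` is minimal (totally minimal) then every closed subgroup of `A × K` is minimal (totally
minimal). -/
theorem result (A : Type u) [CommGroup A] [TopologicalSpace A] [IsTopologicalGroup A] [T2Space A]
    (K : Type v) [Group K] [TopologicalSpace K] [IsTopologicalGroup K] [T2Space K]
    [CompactSpace K] :
    (IsMinimalGroup A → CMinimal (A × K)) ∧ (TotallyMinimal A → CTotallyMinimal (A × K)) :=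
  ⟨q1, q2⟩

end Pool.Agent.Results.MP_35204b_gt.ClosedSubgroupsOfProducts
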